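import Pool.Agent.K3h22.EX.Stm6

/-! ET project: the resultant polynomial. -/

set_option autoImplicit false

namespace Pool.Agent.K3h22.ET

open Pool.Agent.K3h22.EX

/-- the resultant -/
noncomputable def rq {A : Type} [CommRing A] (f : Polynomial A) (E : A) (G : Polynomial A) :
    Polynomial A :=
  Polynomial.resultant (f.map Polynomial.C)
    (Polynomial.C (Polynomial.C E * Polynomial.X) - G.map Polynomial.C) f.natDegree
    (Polynomial.C (Polynomial.C E * Polynomial.X) - G.map Polynomial.C).natDegree

theorem rq_eval {A k : Type} [CommRing A] [Field k] [IsAlgClosed k] (f : Polynomial A)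
    (hf : f.Monic) (E : A) (G : Polynomial A) (χ : A →+* k) (t : k) :
    (rq f E G).eval₂ χ t =
      ((f.map χ).roots.map (fun u => χ E * t - (G.map χ).eval u)).prod := by
  set φ : Polynomial A →+* k := Polynomial.eval₂RingHom χ t with hφ
  have hφC : φ.comp Polynomial.C = χ := by
    ext a
    simp [hφ]
  have h1 : (rq f E G).eval₂ χ t = φ (rq f E G) := by
    rw [hφ, Polynomial.coe_eval₂RingHom]
  set h : Polynomial (Polynomial A) :=
    Polynomial.C (Polynomial.C E * Polynomial.X) - G.map Polynomial.C with hh
  have h2 : h.map φ = Polynomial.C (χ E * t) - G.map χ := by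
    rw [hh, Polynomial.map_sub, Polynomial.map_C, Polynomial.map_map, hφC]
    congr 2
    simp [hφ]
  rw [h1, rq, ← Polynomial.resultant_map_map, Polynomial.map_map, hφC]
  have h3 : (f.map χ).natDegree = f.natDegree := hf.natDegree_map χ
  have h4 := Polynomial.resultant_eq_prod_eval (f.map χ) (h.map φ) h.natDegree
    Polynomial.natDegree_map_le (IsAlgClosed.splits _)
  rw [h3, (hf.map χ).leadingCoeff, one_pow, one_mul] at h4
  rw [← hh, h4]
  congr 1
  refine Multiset.map_congr rfl fun u _ => ?_
  rw [h2, Polynomial.eval_sub, Polynomial.eval_C]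

theorem t_RESQ : S_RESQ := by
  classical
  intro A F _ _ _ _ s f θ D N y m hinj hf hθ hD hN
  set M : ℕ := ∑ a, m a with hM
  set G : Polynomial A := ∏ a, N a ^ m a with hG
  have hGe : ∀ (k : Type) [Field k] (χ : A →+* k) (u : k),
      (G.map χ).eval u = ∏ a, ((N a).map χ).eval u ^ m a := by
    intro k _ χ u
    rw [hG, Polynomial.map_prod, Polynomial.eval_prod]
    refine Finset.prod_congr rfl fun a _ => ?_
    rw [Polynomial.map_pow, Polynomial.eval_pow]
  refine ⟨rq f (D ^ M) G, ?_, ?_, ?_⟩
  · intro h0
    let k := AlgebraicClosure (FractionRing A)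
    let χ : A →+* k := algebraMap A k
    have hχ : Function.Injective χ := by
      have h1 : χ = (algebraMap (FractionRing A) k).comp (algebraMap A (FractionRing A)) :=
        IsScalarTower.algebraMap_eq A (FractionRing A) k
      rw [h1]
      exact (algebraMap (FractionRing A) k).injective.comp (IsFractionRing.injective A _)
    have hχD : χ (D ^ M) ≠ 0 := (map_ne_zero_iff _ hχ).2 (pow_ne_zero _ hD)
    have h1 : ∀ t : k, t ∈ ((f.map χ).roots.toFinset.image
        fun u => (G.map χ).eval u / χ (D ^ M) : Finset k) := by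
      intro t
      have h2 := rq_eval f hf (D ^ M) G χ t
      rw [h0, Polynomial.eval₂_zero] at h2
      have h3 := Multiset.prod_eq_zero_iff.1 h2.symm
      obtain ⟨u, hu, hu'⟩ := Multiset.mem_map.1 h3
      rw [Finset.mem_image]
      refine ⟨u, Multiset.mem_toFinset.2 hu, ?_⟩
      rw [div_eq_iff hχD, ← sub_eq_zero.1 hu', mul_comm]
    have h2 : (Set.univ : Set k).Finite :=
      (Finset.finite_toSet _).subset fun t _ => Finset.mem_coe.2 (h1 t)
    exact Set.infinite_univ h2
  · let k := AlgebraicClosure F
    have h1 : algebraMap F k (Polynomial.aeval (∏ a, y a ^ m a) (rq f (D ^ M) G)) = 0 := by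
      rw [Polynomial.aeval_def, Polynomial.hom_eval₂, rq_eval f hf]
      refine Multiset.prod_eq_zero (Multiset.mem_map.2 ⟨algebraMap F k θ, ?_, ?_⟩)
      · rw [Polynomial.mem_roots (hf.map _).ne_zero, Polynomial.IsRoot.def, Polynomial.eval_map,
          ← Polynomial.hom_eval₂, ← Polynomial.aeval_def, hθ, map_zero]
      · rw [hGe]
        have h2 : ∀ a, ((N a).map ((algebraMap F k).comp (algebraMap A F))).eval
            (algebraMap F k θ) = algebraMap F k (algebraMap A F D * y a) := by
          intro a
          rw [hN, Polynomial.eval_map, ← Polynomial.hom_eval₂, ← Polynomial.aeval_def]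
        simp only [h2, RingHom.comp_apply]
        rw [sub_eq_zero, map_prod, map_pow, map_pow, hM, ← Finset.prod_pow_eq_pow_sum,
          ← Finset.prod_mul_distrib]
        refine Finset.prod_congr rfl fun a _ => ?_
        rw [map_mul, map_pow, mul_pow]
    exact (map_eq_zero_iff _ (algebraMap F k).injective).1 h1
  · intro χ hχD t ht
    rw [Polynomial.eval_map, rq_eval f hf] at ht
    obtain ⟨u, hu, hu'⟩ := Multiset.mem_map.1 (Multiset.prod_eq_zero_iff.1 ht)
    refine ⟨u, (Polynomial.mem_roots (hf.map _).ne_zero).1 hu, ?_⟩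
    rw [hGe, map_pow, sub_eq_zero] at hu'
    have h1 : ∏ a, (((N a).map χ).eval u / χ D) ^ m a =
        (∏ a, ((N a).map χ).eval u ^ m a) / χ D ^ M := by
      simp only [div_pow]
      rw [Finset.prod_div_distrib, Finset.prod_pow_eq_pow_sum]
    rw [h1, ← hu', mul_div_cancel_left₀ _ (pow_ne_zero _ hχD)]

end Pool.Agent.K3h22.ET
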